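import Pool.Agent.Lib.MP_2eed13_lc.LCA.Base

/-!
# CONV: configurations on `Fin n` and configurations on the places `1, …, n`
-/

set_option autoImplicit false

namespace Pool.Agent.Lib.MP_2eed13_lc.LCA.H74

/-- the configuration on the places `1, …, n` -/
def emb {Q : Type} (n : ℕ) (d : Fin n → Q) (i : ℕ) : Option Q :=
  if h : 1 ≤ i ∧ i ≤ n then some (d ⟨i - 1, by omega⟩) else none

/-- the mirrored configuration on the places `1, …, n` -/
def embM {Q : Type} (n : ℕ) (d : Fin n → Q) (i : ℕ) : Option Q :=
  if h : 1 ≤ i ∧ i ≤ n then some (d ⟨n - i, by omega⟩) else none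

lemma emb_init {Q : Type} (n : ℕ) (s : Q) : emb n (fun _ => s) = aInit s n := by
  funext i
  unfold emb aInit
  by_cases h : 1 ≤ i ∧ i ≤ n
  · rw [dif_pos h, if_pos h]
  · rw [dif_neg h, if_neg h]

lemma embM_init {Q : Type} (n : ℕ) (s : Q) : embM n (fun _ => s) = aInit s n := by
  funext i
  unfold embM aInit
  by_cases h : 1 ≤ i ∧ i ≤ n
  · rw [dif_pos h, if_pos h]
  · rw [dif_neg h, if_neg h]

lemma emb_step {Q : Type} (n : ℕ) (δ : Option Q → Q → Option Q → Q) (d : Fin n → Q) :
    emb n (twoStep n δ d) = aStep δ (emb n d) := by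
  funext i
  unfold aStep
  by_cases h : 1 ≤ i ∧ i ≤ n
  · have e0 : emb n d i = some (d ⟨i - 1, by omega⟩) := dif_pos h
    have e1 : emb n (twoStep n δ d) i = some (twoStep n δ d ⟨i - 1, by omega⟩) := dif_pos h
    rw [e0, e1, Option.map_some]
    congr 1
    unfold twoStep
    congr 1
    · by_cases h1 : i = 1
      · subst h1
        have : emb n d (1 - 1) = none := dif_neg (by omega)
        rw [this]
        simp
      · have : emb n d (i - 1) = some (d ⟨i - 1 - 1, by omega⟩) := dif_pos (by omega)
        rw [this, if_neg (by simp; omega)]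
    · by_cases h1 : i + 1 ≤ n
      · have : emb n d (i + 1) = some (d ⟨i + 1 - 1, by omega⟩) := dif_pos (by omega)
        rw [this, dif_pos (by simp; omega)]
        congr 2
        apply Fin.ext
        simp
        omega
      · have : emb n d (i + 1) = none := dif_neg (by omega)
        rw [this, dif_neg (by simp; omega)]
  · have e0 : emb n d i = none := dif_neg h
    have e1 : emb n (twoStep n δ d) i = none := dif_neg h
    rw [e0, e1, Option.map_none]

lemma embM_step {Q : Type} (n : ℕ) (δ : Option Q → Q → Q) (d : Fin n → Q) :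
    embM n (oneStep n δ d) = aStep (fun _ q r => δ r q) (embM n d) := by
  funext i
  unfold aStep
  by_cases h : 1 ≤ i ∧ i ≤ n
  · have e0 : embM n d i = some (d ⟨n - i, by omega⟩) := dif_pos h
    have e1 : embM n (oneStep n δ d) i = some (oneStep n δ d ⟨n - i, by omega⟩) := dif_pos h
    rw [e0, e1, Option.map_some]
    congr 1
    unfold oneStep
    congr 1
    by_cases h1 : i = n
    · have : embM n d (i + 1) = none := dif_neg (by omega)
      rw [this, if_pos (by simp; omega)]
    · have : embM n d (i + 1) = some (d ⟨n - (i + 1), by omega⟩) := dif_pos (by omega)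
      rw [this, if_neg (by simp; omega)]
      congr 2
  · have e0 : embM n d i = none := dif_neg h
    have e1 : embM n (oneStep n δ d) i = none := dif_neg h
    rw [e0, e1, Option.map_none]

lemma emb_iter {Q : Type} (n : ℕ) (δ : Option Q → Q → Option Q → Q) (s : Q) (t : ℕ) :
    (aStep δ)^[t] (aInit s n) = emb n ((twoStep n δ)^[t] (fun _ => s)) := by
  induction t with
  | zero => simp [emb_init]
  | succ t ih =>
    rw [Function.iterate_succ', Function.comp_apply, ih, Function.iterate_succ',
      Function.comp_apply, emb_step]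

lemma embM_iter {Q : Type} (n : ℕ) (δ : Option Q → Q → Q) (s : Q) (t : ℕ) :
    (aStep (fun _ q r => δ r q))^[t] (aInit s n) = embM n ((oneStep n δ)^[t] (fun _ => s)) := by
  induction t with
  | zero => simp [embM_init]
  | succ t ih =>
    rw [Function.iterate_succ', Function.comp_apply, ih, Function.iterate_succ',
      Function.comp_apply, embM_step]

theorem conv : ConvStatement := by
  intro Q s F n t h
  constructor
  · intro δ
    unfold aAcc
    rw [emb_iter]
    have e : emb n ((twoStep n δ)^[t] (fun _ => s)) 1 =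
      some ((twoStep n δ)^[t] (fun _ => s) ⟨0, h⟩) := dif_pos (by omega)
    rw [e]
    constructor
    · intro hF
      exact ⟨_, hF, rfl⟩
    · rintro ⟨q, hq, he⟩
      rw [Option.some.inj he]
      exact hq
  · intro δ
    unfold aAcc
    rw [embM_iter]
    have e : embM n ((oneStep n δ)^[t] (fun _ => s)) 1 =
      some ((oneStep n δ)^[t] (fun _ => s) ⟨n - 1, Nat.sub_lt h Nat.one_pos⟩) :=
      dif_pos (by omega)
    rw [e]
    constructor
    · intro hF
      exact ⟨_, hF, rfl⟩
    · rintro ⟨q, hq, he⟩
      rw [Option.some.inj he]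
      exact hq

end Pool.Agent.Lib.MP_2eed13_lc.LCA.H74
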